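import Pool.Agent.Helper95.MWF.CODE

/-!
# MP_80e84b_lc (S14965): the uniform box for the action
-/

set_option autoImplicit false

open Topology Set Filter
open Nat.Partrec (Code)

namespace Pool.Agent.Helper69.MWF

open Pool.Agent.Helper95.MW
open CodeAux

namespace BoxAux

theorem lt_ec {l : List ℕ} {a : ℕ} (h : a ∈ l) : a < ec l := by
  unfold ec
  induction l with
  | nil => simp at h
  | cons b l ih =>
    rw [Encodable.encode_list_cons]
    rcases List.mem_cons.1 h with h | h
    · subst h
      exact Nat.lt_succ_of_le (Nat.left_le_pair _ _)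
    · exact (ih h).trans_le ((Nat.right_le_pair _ _).trans (Nat.le_succ _))

theorem mem_ini (f : ℕ → ℕ) {i n : ℕ} (h : i < n) : f i ∈ ini f n := by
  unfold ini
  exact List.mem_map.2 ⟨i, List.mem_range.2 h, rfl⟩

theorem ec_inj {l m : List ℕ} (h : ec l = ec m) : l = m := by
  have := congrArg dl h
  rwa [dl_ec, dl_ec] at this

theorem act_le (s g : ℕ → ℕ) : LE (act s g) (jn s g) := by
  refine le_of_rt ?_
  have h1 : RT (jn s g) s := rt_of_le (le_jn_left s g)
  have h2 : LE (fun n => ec (ini g n)) g := le_of_rt (rt_ini g)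
  have h3 : RT (jn s g) (fun n => ec (ini g n)) := rt_of_le (h2.trans (le_jn_right s g))
  have h4 : RT (jn s g) (fun n => n + 1) := rt_prim (Primrec.nat_iff.1 Primrec.succ)
  have h5 : RT (jn s g) (fun n => s (ec (ini g (n + 1)))) := rt_comp h1 (rt_comp h3 h4)
  exact h5

theorem pre_le (f : ℕ → ℕ) (n : ℕ) (h : ℕ → ℕ) : LE (pre f n h) h := by
  refine le_of_rt ?_
  have h1 : Primrec₂ (fun i v : ℕ => if i < n then (ini f n).getD i 0 else v) :=
    Primrec.ite (PrimrecRel.comp Primrec.nat_lt Primrec.fst (Primrec.const n))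
      ((Primrec.list_getD 0).comp (Primrec.const _) Primrec.fst) Primrec.snd
  have h2 := rt_prim2 h1 (rt_id h) (rt_oracle h)
  have h3 : pre f n h = fun i => if i < n then (ini f n).getD i 0 else h i := by
    funext i
    unfold pre
    by_cases hi : i < n
    · rw [if_pos hi, if_pos hi]
      simp [ini, hi]
    · rw [if_neg hi, if_neg hi]
  rw [h3]
  exact h2

theorem isOpen_eq (k v : ℕ) : IsOpen {s : ℕ → ℕ | s k = v} := by
  have h : IsOpen ((fun s : ℕ → ℕ => s k) ⁻¹' {v}) :=
    (isOpen_discrete ({v} : Set ℕ)).preimage (continuous_apply k)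
  exact h

theorem isOpen_Cy0 (f : ℕ → ℕ) (n : ℕ) : IsOpen (Cy f n) := by
  have h : Cy f n = ⋂ i ∈ Finset.range n, {s : ℕ → ℕ | s i = f i} := by
    ext s
    simp [Cy]
  rw [h]
  exact isOpen_biInter_finset fun i _ => isOpen_eq i _

theorem measurable_K (n : ℕ) : Measurable (fun g : ℕ → ℕ => ec (ini g n)) := by
  induction n with
  | zero => exact measurable_const
  | succ n ih =>
    have h1 : (fun g : ℕ → ℕ => ec (ini g (n + 1))) =
        (fun p : ℕ × ℕ => ec (dl p.1 ++ [p.2])) ∘ (fun g : ℕ → ℕ => (ec (ini g n), g n)) := by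
      funext g
      simp only [Function.comp_apply, dl_ec, ini_succ]
    rw [h1]
    exact (measurable_of_countable _).comp (ih.prodMk (measurable_pi_apply n))

theorem measurable_act : Measurable (fun p : (ℕ → ℕ) × (ℕ → ℕ) => act p.1 p.2) := by
  refine measurable_pi_iff.2 fun n => ?_
  have h1 : Measurable (fun q : (ℕ → ℕ) × ℕ => q.1 q.2) :=
    measurable_from_prod_countable_left fun k => measurable_pi_apply k
  exact h1.comp (measurable_fst.prodMk ((measurable_K (n + 1)).comp measurable_snd))

theorem measurable_jn {α : Type*} [MeasurableSpace α] {f g : α → (ℕ → ℕ)} (hf : Measurable f)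
    (hg : Measurable g) : Measurable (fun a => jn (f a) (g a)) := by
  refine measurable_pi_iff.2 fun n => ?_
  have h1 : Measurable (fun q : ℕ × ℕ => Nat.pair q.1 q.2) := measurable_of_countable _
  exact h1.comp (((measurable_pi_apply n).comp hf).prodMk ((measurable_pi_apply n).comp hg))

theorem measurable_pre (f : ℕ → ℕ) (n : ℕ) : Measurable (fun x : ℕ → ℕ => pre f n x) := by
  refine measurable_pi_iff.2 fun k => ?_
  unfold pre
  by_cases h : k < n
  · simp only [if_pos h]
    exact measurable_const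
  · simp only [if_neg h]
    exact measurable_pi_apply k

/-- a value of `s` with given values at the codes of the initial segments of `u` -/
theorem exists_labels (s0 x u : ℕ → ℕ) (N M : ℕ)
    (h : ∀ i < M, ec (ini u (i + 1)) < N → s0 (ec (ini u (i + 1))) = x i) :
    ∃ s, s ∈ Cy s0 N ∧ ∀ i < M, s (ec (ini u (i + 1))) = x i := by
  classical
  have hinj : ∀ i j, ec (ini u (i + 1)) = ec (ini u (j + 1)) → i = j := by
    intro i j hij
    have := congrArg List.length (ec_inj hij)
    rw [ini_length, ini_length] at this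
    omega
  refine ⟨fun k => if hk : ∃ i < M, k = ec (ini u (i + 1)) then x hk.choose else s0 k, ?_, ?_⟩
  · intro k hkN
    by_cases hk : ∃ i < M, k = ec (ini u (i + 1))
    · simp only [dif_pos hk]
      have h1 := hk.choose_spec
      rw [← h _ h1.1 (by rw [← h1.2]; exact hkN), ← h1.2]
    · simp only [dif_neg hk]
  · intro i hi
    have hk : ∃ j < M, ec (ini u (i + 1)) = ec (ini u (j + 1)) := ⟨i, hi, rfl⟩
    simp only [dif_pos hk]
    rw [← hinj _ _ hk.choose_spec.2]

end BoxAux

open BoxAux

theorem st_BOX (uni1 : ST_UNI1) (uni2 : ST_UNI2) (comp : ST_COMP) (bsw : ST_BORSW)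
    (res : ST_RES) : ST_BOX := by
  intro π F G hπ hR
  obtain ⟨-, -, rpre, -, -, rfst, rsnd, -, ract⟩ := res
  have hG := hR.res
  -- first box
  have hgen1 : ∀ᶠ p in residual ((ℕ → ℕ) × (ℕ → ℕ)), ∃ c : Code,
      p ∈ {p : (ℕ → ℕ) × (ℕ → ℕ) | segs (F (act p.1 p.2)) = WC c (jn (F p.1) (F p.2))} := by
    filter_upwards [rfst.eventually hG, rsnd.eventually hG, ract.eventually hG] with p h1 h2 h3
    have h4 : LE (F (act p.1 p.2)) (jn (F p.1) (F p.2)) := by
      refine (hR.te _ h3).1.trans ?_
      refine ((hπ.iff _ _).1 (act_le p.1 p.2)).trans ?_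
      exact (pi_jn hπ _ _).1.trans (jn_mono (hR.te _ h1).2 (hR.te _ h2).2)
    exact ceIn_iff.1 (le_iff_segs.1 h4)
  have hmeas1 : ∀ c : Code, MeasurableSet
      {p : (ℕ → ℕ) × (ℕ → ℕ) | segs (F (act p.1 p.2)) = WC c (jn (F p.1) (F p.2))} := by
    intro c
    have h1 : Measurable (fun p : (ℕ → ℕ) × (ℕ → ℕ) =>
        ((F (act p.1 p.2), jn (F p.1) (F p.2)) : (ℕ → ℕ) × (ℕ → ℕ))) :=
      (hR.meas.comp measurable_act).prodMk
        (measurable_jn (hR.meas.comp measurable_fst) (hR.meas.comp measurable_snd))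
    exact h1 (bsw c)
  obtain ⟨j, s0, g0, N, -, -, -, hbox1⟩ := uni2 Code _ hmeas1 hgen1 (fun _ => 0) (fun _ => 0) 0
  set gs : ℕ → ℕ := Function.update g0 N N with hgs
  set m : ℕ := N + 1 with hm
  -- second box
  have hgen2 : ∀ᶠ h in residual (ℕ → ℕ), ∃ c : Code,
      h ∈ {h : ℕ → ℕ | segs (F (pre gs m h)) = WC c (F h)} := by
    filter_upwards [hG, (rpre gs m).eventually hG] with h h1 h2
    have h4 : LE (F (pre gs m h)) (F h) := by
      refine (hR.te _ h2).1.trans ?_
      exact ((hπ.iff _ _).1 (pre_le gs m h)).trans (hR.te _ h1).2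
    exact ceIn_iff.1 (le_iff_segs.1 h4)
  have hmeas2 : ∀ c : Code, MeasurableSet {h : ℕ → ℕ | segs (F (pre gs m h)) = WC c (F h)} := by
    intro c
    have h1 : Measurable (fun h : ℕ → ℕ => ((F (pre gs m h), F h) : (ℕ → ℕ) × (ℕ → ℕ))) :=
      (hR.meas.comp (measurable_pre gs m)).prodMk hR.meas
    exact h1 (bsw c)
  obtain ⟨j', xs, M, hmM, hxs, hbox2⟩ := uni1 Code _ hmeas2 hgen2 (act s0 gs) m
  obtain ⟨c, hc⟩ := comp j j'
  set u : ℕ → ℕ := pre gs m xs with hu
  have hui : ∀ i, i < m → u i = gs i := by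
    intro i hi
    rw [hu]
    unfold pre
    rw [if_pos hi]
  have huN : u N = N := by
    rw [hui N (by omega), hgs, Function.update_self]
  have hbig : ∀ l : List ℕ, N ∈ l → ¬ ec l < N := fun l hl h => by
    have := lt_ec hl
    omega
  refine ⟨u, M, {s | s ∈ Cy s0 N ∧ ∀ i < M, s (ec (ini u (i + 1))) = xs i}, c, ?_, ?_, ?_, ?_⟩
  · have h1 : {s : ℕ → ℕ | s ∈ Cy s0 N ∧ ∀ i < M, s (ec (ini u (i + 1))) = xs i} =
        Cy s0 N ∩ ⋂ i ∈ Finset.range M, {s : ℕ → ℕ | s (ec (ini u (i + 1))) = xs i} := by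
      ext s
      simp
    rw [h1]
    exact (isOpen_Cy0 _ _).inter (isOpen_biInter_finset fun i _ => isOpen_eq _ _)
  · obtain ⟨s, hs1, hs2⟩ := exists_labels s0 xs u N M (by
      intro i hi hlt
      have hiN : i < N := by
        by_contra hc
        refine hbig _ ?_ hlt
        have := mem_ini u (show N < i + 1 by omega)
        rwa [huN] at this
      have h1 : ini u (i + 1) = ini gs (i + 1) :=
        ini_eq_of_agree fun k hk => hui k (by omega)
      rw [h1]
      exact (hxs i (by omega)).symm)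
    exact ⟨s, hs1, hs2⟩
  · rintro s ⟨hs1, hs2⟩
    refine ⟨?_, ?_⟩
    · intro k hk
      unfold Hm
      rw [if_neg]
      · exact hs1 k hk
      · intro hke
        have h1 : N ∈ ini u M ++ [(dl k).getD M 0] := by
          refine List.mem_append_left _ ?_
          have := mem_ini u (show N < M by omega)
          rwa [huN] at this
        exact hbig _ h1 (hke ▸ hk)
    · intro i hi
      unfold Hm
      rw [if_neg]
      · exact hs2 i hi
      · intro hke
        have h1 := congrArg List.length (ec_inj hke)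
        rw [ini_length, List.length_append, ini_length, List.length_singleton] at h1
        omega
  · filter_upwards [hbox1, ract.eventually hbox2] with p h1 h2 hpW hpu
    obtain ⟨hs1, hs2⟩ := hpW
    have h3 : p.2 ∈ Cy g0 N := by
      intro i hi
      rw [hpu i (by omega), hui i (by omega), hgs, Function.update_of_ne (by omega)]
    have h4 := h1 hs1 h3
    have h5 : act p.1 p.2 ∈ Cy xs M := by
      intro i hi
      have he : ini p.2 (i + 1) = ini u (i + 1) :=
        ini_eq_of_agree fun k hk => hpu k (by omega)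
      unfold act
      rw [he, hs2 i hi]
    have h6 := h2 h5
    have h7 : alp u M p.1 p.2 = pre gs m (act p.1 p.2) := by
      funext i
      unfold alp pre
      by_cases hiM : i < M
      · rw [if_pos hiM]
        by_cases him : i < m
        · rw [if_pos him, hui i him]
        · rw [if_neg him, h5 i hiM, hu]
          unfold pre
          rw [if_neg him]
      · rw [if_neg hiM, if_neg (by omega)]
    rw [h7]
    exact hc _ _ _ h4 h6

end Pool.Agent.Helper69.MWF
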