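import Pool.Agent.Helper69.MWF.Stmts
import Pool.Agent.Helper27.MWF.Fusion

/-!
# MP_80e84b_lc (S14965): Borel representation of an automorphism at generic points
-/

set_option autoImplicit false

open Topology Set Filter
open Nat.Partrec (Code)

namespace Pool.Agent.Helper69.MWF

open Pool.Agent.Helper95.MW

namespace CodeAux

/-- remove column `n` -/
def rmc (a : ℕ → ℕ) (n : ℕ) : ℕ → ℕ := fun k => if k.unpair.1 = n then 0 else a k

open Classical in
/-- the columns in `S` -/
noncomputable def cols (a : ℕ → ℕ) (S : Set ℕ) : ℕ → ℕ :=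
  fun k => if k.unpair.1 ∈ S then a k else 0

/-- graph as a set -/
def gr (f : ℕ → ℕ) : Set ℕ := {n | n.unpair.2 = f n.unpair.1}

open Classical in
/-- characteristic function -/
noncomputable def chi (S : Set ℕ) : ℕ → ℕ := fun n => if n ∈ S then 1 else 0

theorem nwd_bad (n : ℕ) (c : Code) : NWD {a : ℕ → ℕ | segs (col a n) = WC c (rmc a n)} := by
  intro y s
  by_cases hy : ∃ x : ℕ → ℕ, ini x s = ini y s ∧ segs (col x n) = WC c (rmc x n)
  · obtain ⟨x, hx, hxe⟩ := hy
    set m : ℕ := Nat.pair n s with hm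
    have hms : s ≤ m := Nat.right_le_pair n s
    have h1 : ec (ini (col x n) (s + 1)) ∈ WC c (rmc x n) := by
      rw [← hxe]
      exact ⟨s + 1, rfl⟩
    obtain ⟨t, ht⟩ := WC_use h1
    set y' : ℕ → ℕ := Function.update x m (x m + 1) with hy'
    have hrm : rmc y' n = rmc x n := by
      funext k
      unfold rmc
      by_cases hk : k.unpair.1 = n
      · rw [if_pos hk, if_pos hk]
      · rw [if_neg hk, if_neg hk, hy', Function.update_of_ne]
        intro hkm
        exact hk (by rw [hkm, hm, Nat.unpair_pair])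
    refine ⟨y', max (m + 1) t, by omega, ?_, ?_⟩
    · rw [← hx]
      refine ini_eq_of_agree fun i hi => ?_
      rw [hy', Function.update_of_ne (by omega)]
    · intro z hz hzy
      have h2 : ∀ i, i < max (m + 1) t → z i = y' i := agree_of_ini_eq hzy
      have h3 : ec (ini (col x n) (s + 1)) ∈ WC c (rmc z n) := by
        refine ht _ fun i hi => ?_
        rw [← hrm]
        unfold rmc
        rw [h2 i (by omega)]
      rw [← hz] at h3
      obtain ⟨r, hr⟩ := h3
      have h4 : ini (col x n) (s + 1) = ini (col z n) r := by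
        have := congrArg dl hr
        rwa [dl_ec, dl_ec] at this
      have h5 : r = s + 1 := by
        have := congrArg List.length h4
        rw [ini_length, ini_length] at this
        exact this.symm
      subst h5
      have h6 : col x n s = col z n s := agree_of_ini_eq h4 s (by omega)
      have h7 : col z n s = x m + 1 := by
        change z (Nat.pair n s) = _
        rw [← hm, h2 m (by omega), hy', Function.update_self]
      have h8 : col x n s = x m := rfl
      omega
  · push Not at hy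
    exact ⟨y, s, le_rfl, rfl, fun x hx hxy => hy x hxy hx⟩

/-- an independent sequence -/
theorem exists_indep : ∃ a : ℕ → ℕ, ∀ n, ¬ LE (col a n) (rmc a n) := by
  by_contra hc
  push Not at hc
  have h1 : Sm (⋃ p : ℕ × Code, {a : ℕ → ℕ | segs (col a p.1) = WC p.2 (rmc a p.1)}) :=
    sm_iUnion fun p => sm_of_nwd (nwd_bad p.1 p.2)
  refine not_sm_univ (h1.mono ?_)
  intro a _
  obtain ⟨n, hn⟩ := hc a
  obtain ⟨c, hc⟩ := ceIn_iff.1 (le_iff_segs.1 hn)
  exact mem_iUnion.2 ⟨(n, c), hc⟩

/-! ### Turing reducibility of the auxiliary functions -/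

theorem le_of_rt {g f : ℕ → ℕ} (h : RT f g) : LE g f := le_iff.2 h

theorem rt_of_le {g f : ℕ → ℕ} (h : LE g f) : RT f g := le_iff.1 h

theorem rt_prim2 {w g h : ℕ → ℕ} {P : ℕ → ℕ → ℕ} (hP : Primrec₂ P) (hg : RT w g) (hh : RT w h) :
    RT w (fun n => P (g n) (h n)) := by
  have h1 : Nat.Primrec (fun n : ℕ => P n.unpair.1 n.unpair.2) :=
    Primrec.nat_iff.1 (hP.comp (Primrec.fst.comp Primrec.unpair) (Primrec.snd.comp Primrec.unpair))
  have h2 := rt_comp (rt_prim (w := w) h1) (rt_pair hg hh)
  simpa only [Nat.unpair_pair] using h2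

theorem rt_const (w : ℕ → ℕ) (k : ℕ) : RT w (fun _ => k) :=
  rt_prim (Primrec.nat_iff.1 (Primrec.const k))

theorem rt_id (w : ℕ → ℕ) : RT w (fun n => n) := rt_prim (Primrec.nat_iff.1 Primrec.id)

/-- equality test: `a` if `g n = h n`, else `b` -/
theorem rt_ite {w g h p q : ℕ → ℕ} (hg : RT w g) (hh : RT w h) (hp : RT w p) (hq : RT w q) :
    RT w (fun n => if g n = h n then p n else q n) := by
  have h1 : Primrec (fun v : (ℕ × ℕ) × ℕ × ℕ => if v.1.1 = v.1.2 then v.2.1 else v.2.2) :=
    Primrec.ite (PrimrecRel.comp Primrec.eq (Primrec.fst.comp Primrec.fst)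
      (Primrec.snd.comp Primrec.fst)) (Primrec.fst.comp Primrec.snd) (Primrec.snd.comp Primrec.snd)
  have h2 : Nat.Primrec (fun n : ℕ => if n.unpair.1.unpair.1 = n.unpair.1.unpair.2 then
      n.unpair.2.unpair.1 else n.unpair.2.unpair.2) := by
    refine Primrec.nat_iff.1 (h1.comp (Primrec.pair (Primrec.pair ?_ ?_) (Primrec.pair ?_ ?_)))
    · exact Primrec.fst.comp (Primrec.unpair.comp (Primrec.fst.comp Primrec.unpair))
    · exact Primrec.snd.comp (Primrec.unpair.comp (Primrec.fst.comp Primrec.unpair))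
    · exact Primrec.fst.comp (Primrec.unpair.comp (Primrec.snd.comp Primrec.unpair))
    · exact Primrec.snd.comp (Primrec.unpair.comp (Primrec.snd.comp Primrec.unpair))
  have h3 := rt_comp (rt_prim (w := w) h2) (rt_pair (rt_pair hg hh) (rt_pair hp hq))
  simpa only [Nat.unpair_pair] using h3

theorem col_le (a : ℕ → ℕ) (n : ℕ) : LE (col a n) a := by
  refine le_of_rt ?_
  have h : RT a (fun k => a (Nat.pair n k)) :=
    rt_comp (rt_oracle a) (rt_pair (rt_const a n) (rt_id a))
  exact h

theorem rmc_le (a : ℕ → ℕ) (n : ℕ) : LE (rmc a n) a := by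
  refine le_of_rt ?_
  exact rt_ite rt_left (rt_const a n) (rt_const a 0) (rt_oracle a)

theorem col_le_cols (a : ℕ → ℕ) {S : Set ℕ} {n : ℕ} (hn : n ∈ S) : LE (col a n) (cols a S) := by
  have h1 : col a n = col (cols a S) n := by
    funext k
    unfold col cols
    rw [if_pos (by rwa [Nat.unpair_pair])]
  rw [h1]
  exact col_le _ _

theorem chi_gr_le (f : ℕ → ℕ) : LE (chi (gr f)) f := by
  refine le_of_rt ?_
  have h1 : RT f (fun n => if n.unpair.2 = f n.unpair.1 then 1 else 0) :=
    rt_ite rt_right (rt_comp (rt_oracle f) rt_left) (rt_const f 1) (rt_const f 0)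
  have h2 : chi (gr f) = fun n => if n.unpair.2 = f n.unpair.1 then 1 else 0 := by
    funext n
    unfold chi gr
    by_cases h : n.unpair.2 = f n.unpair.1
    · rw [if_pos h]
      exact if_pos h
    · rw [if_neg h]
      exact if_neg h
  rw [h2]
  exact h1

theorem le_chi_gr (f : ℕ → ℕ) : LE f (chi (gr f)) := by
  refine le_of_rt ?_
  set g : ℕ → ℕ := chi (gr f) with hg
  have h0 : RT g (fun v => if g v = 1 then 0 else 1) :=
    rt_ite (rt_oracle g) (rt_const g 1) (rt_const g 0) (rt_const g 1)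
  have h1 := Nat.RecursiveIn.rfind h0
  refine h1.of_eq_tot fun n => ?_
  rw [Nat.mem_rfind]
  have key : ∀ m : ℕ, (g (Nat.pair n m) = 1) ↔ m = f n := by
    intro m
    rw [hg]
    unfold chi gr
    rw [Set.mem_ofPred_eq, Nat.unpair_pair]
    by_cases h : m = f n
    · rw [if_pos h]
      simp [h]
    · rw [if_neg h]
      simp [h]
  constructor
  · simp only [PFun.lift, Part.map_eq_map, Part.map_some, Part.mem_some_iff]
    rw [if_pos ((key (f n)).2 rfl)]
    simp
  · intro m hm
    simp only [PFun.lift, Part.map_eq_map, Part.map_some, Part.mem_some_iff]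
    rw [if_neg (fun h => by
      have := (key m).1 h
      omega)]
    simp

theorem cols_le (a f : ℕ → ℕ) : LE (cols a (gr f)) (jn a f) := by
  refine LE.trans ?_ (jn_le (le_jn_left a f) ((chi_gr_le f).trans (le_jn_right a f)))
  refine le_of_rt ?_
  set g := jn a (chi (gr f)) with hg
  have h1 : RT g (fun k => if chi (gr f) k.unpair.1 = 1 then a k else 0) :=
    rt_ite (rt_comp (rt_of_le (le_jn_right a (chi (gr f)))) rt_left) (rt_const g 1)
      (rt_of_le (le_jn_left a (chi (gr f)))) (rt_const g 0)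
  have h2 : cols a (gr f) = fun k => if chi (gr f) k.unpair.1 = 1 then a k else 0 := by
    funext k
    unfold cols chi
    by_cases h : k.unpair.1 ∈ gr f
    · rw [if_pos h, if_pos h, if_pos rfl]
    · rw [if_neg h, if_neg h, if_neg (by norm_num)]
  rw [h2]
  exact h1

theorem cols_rmc (a : ℕ → ℕ) {S : Set ℕ} {n : ℕ} (hn : n ∉ S) : cols a S = cols (rmc a n) S := by
  funext k
  unfold cols rmc
  by_cases h : k.unpair.1 ∈ S
  · rw [if_pos h, if_pos h, if_neg]
    rintro rfl
    exact hn h
  · rw [if_neg h, if_neg h]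

/-! ### joins -/

theorem pi_jn {π : (ℕ → ℕ) → (ℕ → ℕ)} (h : PiAut π) (f g : ℕ → ℕ) :
    LE (π (jn f g)) (jn (π f) (π g)) ∧ LE (jn (π f) (π g)) (π (jn f g)) := by
  constructor
  · obtain ⟨w, hw1, hw2⟩ := h.surj (jn (π f) (π g))
    have h1 : LE f w := (h.iff _ _).2 ((le_jn_left _ _).trans hw2)
    have h2 : LE g w := (h.iff _ _).2 ((le_jn_right _ _).trans hw2)
    exact ((h.iff _ _).1 (jn_le h1 h2)).trans hw1
  · exact jn_le ((h.iff _ _).1 (le_jn_left f g)) ((h.iff _ _).1 (le_jn_right f g))

theorem jn_mono {f f' g g' : ℕ → ℕ} (h1 : LE f f') (h2 : LE g g') : LE (jn f g) (jn f' g') :=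
  jn_le (h1.trans (le_jn_left _ _)) (h2.trans (le_jn_right _ _))

end CodeAux

open CodeAux

theorem st_CODE (ap : ST_AP) (ble : ST_BORLE) : ST_CODE := by
  intro π hπ
  obtain ⟨hap1, hap2, hap3, -⟩ := ap
  obtain ⟨a, ha⟩ := exists_indep
  obtain ⟨c, hc1, hc2⟩ := hπ.surj a
  have hd : ∀ n, ∃ d, TE (π d) (col a n) := fun n => hπ.surj (col a n)
  have he : ∀ n, ∃ e, TE (π e) (rmc a n) := fun n => hπ.surj (rmc a n)
  choose d hd using hd
  choose e he using he
  have hde : ∀ n, ¬ LE (d n) (e n) := fun n h =>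
    ha n (((hd n).2.trans ((hπ.iff _ _).1 h)).trans (he n).1)
  classical
  set Y : ℕ → (ℕ → ℕ) → (ℕ → ℕ) := fun i x n =>
    if LE (d n) (Ap (Denumerable.ofNat Code i) (jn c x)) then 1 else 0 with hY
  refine ⟨Y, ?_, ?_⟩
  · intro i
    refine measurable_pi_iff.2 fun n => ?_
    refine Measurable.ite ?_ measurable_const measurable_const
    have h1 : Measurable (fun x : ℕ → ℕ => jn c x) := by
      refine measurable_pi_iff.2 fun k => ?_
      exact (measurable_from_top (f := fun m => Nat.pair (c k) m)).comp (measurable_pi_apply k)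
    have h2 : Measurable (fun x : ℕ → ℕ =>
        ((d n, Ap (Denumerable.ofNat Code i) (jn c x)) : (ℕ → ℕ) × (ℕ → ℕ))) :=
      measurable_const.prodMk ((hap1 _).comp h1)
    exact h2 ble
  · have h1 : ∀ n, IsMeagre {x : ℕ → ℕ | LE (d n) (jn (e n) x)} := by
      intro n
      by_contra hm
      exact hde n (gen_le (fun hs => hm ((MWFusion.sm_iff).1 hs)) fun x hx => hx)
    have h2 : ∀ᶠ x in residual (ℕ → ℕ), ∀ n, ¬ LE (d n) (jn (e n) x) := by
      rw [eventually_countable_forall]
      intro n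
      exact h1 n
    filter_upwards [h2] with x hx
    set S := gr (π x) with hS
    obtain ⟨z, hz1, hz2⟩ := hπ.surj (cols a S)
    have hzc : LE z (jn c x) := by
      refine (hπ.iff _ _).2 ((hz1.trans ?_).trans (pi_jn hπ c x).2)
      exact (cols_le a (π x)).trans (jn_mono hc2 (LE.refl _))
    obtain ⟨c0, hc0⟩ := hap3 _ _ hzc
    refine ⟨Encodable.encode c0, ?_⟩
    have hkey : ∀ n, LE (d n) z ↔ n ∈ S := by
      intro n
      constructor
      · intro h
        by_contra hn
        refine hx n ((hπ.iff _ _).2 ?_)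
        refine LE.trans ?_ (pi_jn hπ (e n) x).2
        refine (((hπ.iff _ _).1 h).trans hz1).trans ?_
        rw [cols_rmc a hn]
        exact (cols_le _ _).trans (jn_mono (he n).2 (LE.refl _))
      · intro hn
        exact (hπ.iff _ _).2 (((hd n).1.trans (col_le_cols a hn)).trans hz2)
    have hYx : Y (Encodable.encode c0) x = chi S := by
      funext n
      simp only [hY, chi, Denumerable.ofNat_encode, hc0, hkey n]
    rw [hYx, hS]
    exact ⟨chi_gr_le _, le_chi_gr _⟩

end Pool.Agent.Helper69.MWF
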