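import Pool.Agent.Helper69.MWF.BasicT
import Pool.Agent.Helper69.MWF.Stmts

/-!
# MP_80e84b_lc (S14965): `π z ≤ b + z` for all `z`
-/

set_option autoImplicit false

open Topology Set Filter
open Nat.Partrec (Code)

namespace Pool.Agent.Helper69.MWF

open Pool.Agent.Helper95.MW

namespace GlobAux

theorem primrec_two_pow : Primrec (fun n : ℕ => 2 ^ n) := by
  have h : Primrec (fun n : ℕ => Nat.rec (motive := fun _ => ℕ) 1 (fun _ k => k * 2) n) :=
    Primrec.nat_rec₁ 1 (Primrec.nat_mul.comp Primrec.snd (Primrec.const 2)).to₂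
  refine h.of_eq fun n => ?_
  induction n with
  | zero => rfl
  | succ n ih =>
    change (Nat.rec (motive := fun _ => ℕ) 1 (fun _ k => k * 2) n) * 2 = _
    rw [ih, pow_succ]

/-- sum of the first binary digits of the xor -/
def xs (a b : ℕ) : ℕ → ℕ
  | 0 => 0
  | i + 1 => xs a b i + 2 ^ i * ((a / 2 ^ i + b / 2 ^ i) % 2)

theorem xs_eq (a b n : ℕ) : xs a b n = (a ^^^ b) % 2 ^ n := by
  induction n with
  | zero => simp [xs, Nat.mod_one]
  | succ n ih =>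
    rw [xs, ih, Nat.mod_pow_succ]
    congr 2
    rw [← Nat.shiftRight_eq_div_pow (a ^^^ b), Nat.shiftRight_xor_distrib, Nat.xor_mod_two_eq,
      Nat.shiftRight_eq_div_pow, Nat.shiftRight_eq_div_pow]

theorem primrec_xor : Primrec₂ (fun a b : ℕ => a ^^^ b) := by
  have h1 : Primrec₂ (fun (p : ℕ × ℕ) (n : ℕ) => xs p.1 p.2 n) := by
    have h2 : Primrec₂ (fun (p : ℕ × ℕ) (n : ℕ) => Nat.rec (motive := fun _ => ℕ) 0
        (fun i k => k + 2 ^ i * ((p.1 / 2 ^ i + p.2 / 2 ^ i) % 2)) n) := by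
      have h0 : Primrec (fun _ : ℕ × ℕ => (0 : ℕ)) := Primrec.const 0
      have hp : Primrec (fun v : (ℕ × ℕ) × (ℕ × ℕ) => 2 ^ v.2.1) :=
        primrec_two_pow.comp (Primrec.fst.comp Primrec.snd)
      have h3 : Primrec (fun v : (ℕ × ℕ) × (ℕ × ℕ) => v.1.1 / 2 ^ v.2.1) :=
        Primrec.nat_div.comp (Primrec.fst.comp Primrec.fst) hp
      have h4 : Primrec (fun v : (ℕ × ℕ) × (ℕ × ℕ) => v.1.2 / 2 ^ v.2.1) :=
        Primrec.nat_div.comp (Primrec.snd.comp Primrec.fst) hp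
      have h5 : Primrec (fun v : (ℕ × ℕ) × (ℕ × ℕ) =>
          (v.1.1 / 2 ^ v.2.1 + v.1.2 / 2 ^ v.2.1) % 2) :=
        Primrec.nat_mod.comp (Primrec.nat_add.comp h3 h4) (Primrec.const 2)
      have h6 : Primrec (fun v : (ℕ × ℕ) × (ℕ × ℕ) => v.2.2 +
          2 ^ v.2.1 * ((v.1.1 / 2 ^ v.2.1 + v.1.2 / 2 ^ v.2.1) % 2)) :=
        Primrec.nat_add.comp (Primrec.snd.comp Primrec.snd) (Primrec.nat_mul.comp hp h5)
      have h7 : Primrec₂ (fun (p ik : ℕ × ℕ) => ik.2 +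
          2 ^ ik.1 * ((p.1 / 2 ^ ik.1 + p.2 / 2 ^ ik.1) % 2)) := h6.to₂
      exact Primrec.nat_rec h0 h7
    refine h2.of_eq fun p n => ?_
    induction n with
    | zero => rfl
    | succ n ih =>
      change (Nat.rec (motive := fun _ => ℕ) 0
        (fun i k => k + 2 ^ i * ((p.1 / 2 ^ i + p.2 / 2 ^ i) % 2)) n) + _ = _
      rw [ih, xs]
  have h3 : Primrec₂ (fun a b : ℕ => xs a b (a + b)) := by
    have h4 : Primrec (fun v : ℕ × ℕ => xs v.1 v.2 (v.1 + v.2)) :=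
      h1.comp Primrec.id (Primrec.nat_add.comp Primrec.fst Primrec.snd)
    exact h4.to₂
  refine h3.of_eq fun a b => ?_
  rw [xs_eq]
  refine Nat.mod_eq_of_lt (Nat.xor_lt_two_pow ?_ ?_)
  · exact lt_of_le_of_lt (Nat.le_add_right a b) Nat.lt_two_pow_self
  · exact lt_of_le_of_lt (Nat.le_add_left b a) Nat.lt_two_pow_self

theorem xr_le {f g w : ℕ → ℕ} (hf : LE f w) (hg : LE g w) : LE (xr f g) w := by
  have h : Primrec fun v : ℕ × ℕ × ℕ => v.2.1 ^^^ v.2.2 :=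
    primrec_xor.comp (Primrec.fst.comp Primrec.snd) (Primrec.snd.comp Primrec.snd)
  exact le_fun3 (G := fun _ a b => a ^^^ b) h hf hg

end GlobAux

open GlobAux

theorem st_GLOB (code : ST_CODE) (bm : ST_BM) (res : ST_RES) : ST_GLOB := by
  intro π hπ
  obtain ⟨Y, hY1, hY2⟩ := code π hπ
  obtain ⟨b, hb⟩ := bm Y hY1
  obtain ⟨-, rxr, -⟩ := res
  have h1 : ∀ᶠ x in residual (ℕ → ℕ), LE (π x) (jn b x) := by
    filter_upwards [hY2, hb] with x ⟨e, he⟩ h2
    exact he.2.trans (h2 e)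
  refine ⟨b, fun z => ?_⟩
  by_contra hc
  have h2 := ind hc
  obtain ⟨g, ⟨hg1, hg2, hg3⟩, -⟩ := exists_of_residual'
    (h1.and (((rxr z).eventually h1).and h2)) (fun _ => 0) 0
  refine hg3 ?_
  have h3 : LE z (jn g (xr g z)) := by
    have := xr_le (le_jn_left g (xr g z)) (le_jn_right g (xr g z))
    rwa [xr_xr'] at this
  have h4 := pi_le_jn hπ h3
  refine h4.trans (jn_le ?_ ?_)
  · refine hg1.trans (jn_le ?_ (le_jn_right _ _))
    exact (le_jn_left b z).trans (le_jn_left _ _)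
  · refine hg2.trans (jn_le ?_ ?_)
    · exact (le_jn_left b z).trans (le_jn_left _ _)
    · exact xr_le (le_jn_right _ _) ((le_jn_right b z).trans (le_jn_left _ _))

end Pool.Agent.Helper69.MWF
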