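import Pool.Agent.Helper69.MWF.KKG

/-!
# MP_80e84b_lc (S14965): generic pairs
-/

set_option autoImplicit false

open Topology Set Filter
open Nat.Partrec (Code)

namespace Pool.Agent.Helper69.MWF

open Pool.Agent.Helper95.MW

namespace KKAux

theorem exists_g {A : Set ℕ} {e : ℕ → ℕ} (he : range e = A) {k1 k2 g : ℕ → ℕ} {n : ℕ}
    (h : ∀ i, (k1 i ^^^ k2 i) ∈ A) (hg : ∀ i < n, e (g i) = k1 i ^^^ k2 i) :
    ∃ g', g' ∈ Cy g n ∧ k2 = xr k1 (e ∘ g') := by
  have h1 : ∀ i, ∃ j, e j = k1 i ^^^ k2 i := fun i => by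
    have := h i
    rw [← he] at this
    exact this
  choose j hj using h1
  refine ⟨fun i => if i < n then g i else j i, fun i hi => if_pos hi, ?_⟩
  funext i
  have h2 : e (if i < n then g i else j i) = k1 i ^^^ k2 i := by
    by_cases hi : i < n
    · rw [if_pos hi, hg i hi]
    · rw [if_neg hi, hj i]
  simp only [xr, Function.comp_apply, h2]
  rw [← Nat.xor_assoc, Nat.xor_self, Nat.zero_xor]

theorem surj_residual : ∀ᶠ g in residual (ℕ → ℕ), ∀ v : ℕ, ∃ n, g n = v := by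
  rw [eventually_countable_forall]
  intro v
  refine residual_of_dense_open ?_ ?_
  · have h : {g : ℕ → ℕ | ∃ n, g n = v} = ⋃ n, {g : ℕ → ℕ | g n = v} := by
      ext g
      simp
    change IsOpen {g : ℕ → ℕ | ∃ n, g n = v}
    rw [h]
    refine isOpen_iUnion fun n => ?_
    have h2 : IsOpen ((fun g : ℕ → ℕ => g n) ⁻¹' {v}) :=
      (isOpen_discrete ({v} : Set ℕ)).preimage (continuous_apply n)
    exact h2
  · refine dense_of_Cy fun x n => ?_
    refine ⟨pre x n (fun _ => v), ⟨n, ?_⟩, pre_mem x n _⟩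
    unfold pre
    rw [if_neg (lt_irrefl n)]

end KKAux

open KKAux

theorem st_KK (res : ST_RES) : ST_KK := by
  intro A F π G hR e he
  obtain ⟨-, -, -, -, -, rfst, rsnd, rxr, -⟩ := res
  have hG := hR.res
  refine ⟨?_, ?_, ?_, ?_⟩
  · filter_upwards [rfst.eventually hG, (rxr e).eventually hG] with p h1 h2
    refine ⟨h1, h2, fun n => ?_⟩
    simp only [xr, Function.comp_apply]
    rw [← Nat.xor_assoc, Nat.xor_self, Nat.zero_xor, ← he]
    exact mem_range_self _
  · filter_upwards [rsnd.eventually surj_residual] with p h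
    rw [← he]
    ext a
    constructor
    · rintro ⟨n, rfl⟩
      exact mem_range_self _
    · rintro ⟨v, rfl⟩
      obtain ⟨n, hn⟩ := h v
      exact ⟨n, by simp [hn]⟩
  · intro k1 k2 hk n
    obtain ⟨g, -, hg⟩ := exists_g (n := 0) (k1 := k1) (k2 := k2) (g := fun _ => 0) he hk.2.2
      (fun i hi => absurd hi (Nat.not_lt_zero i))
    refine ⟨g, hg, ?_⟩
    rw [hg] at hk ⊢
    exact kkg hR e k1 g hk n
  · intro k g hk n
    obtain ⟨m1, h1⟩ := hR.inv k hk.1 n
    obtain ⟨m2, h2⟩ := hR.inv (xr k (e ∘ g)) hk.2.1 n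
    refine ⟨max m1 m2, fun k1 k2 hk12 hmem => ?_⟩
    rw [jn_mem_iff] at hmem
    have h3 : k1 ∈ Cy k n := h1 k1 hk12.1 (Cy_mono (le_max_left _ _) hmem.1)
    have h4 : k2 ∈ Cy (xr k (e ∘ g)) n := h2 k2 hk12.2.1 (Cy_mono (le_max_right _ _) hmem.2)
    obtain ⟨g', hg1, hg2⟩ := exists_g (n := n) (k1 := k1) (k2 := k2) (g := g) he hk12.2.2
      (fun i hi => by
      rw [h3 i hi, h4 i hi]
      simp only [xr, Function.comp_apply]
      rw [← Nat.xor_assoc, Nat.xor_self, Nat.zero_xor])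
    exact ⟨g', hg1, h3, hg2⟩

end Pool.Agent.Helper69.MWF
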